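import Pool.Agent.J6H54.CG.Stm

/-! # CG-22: sums over rationals with bounded denominator (helper85 for helper54) -/

set_option autoImplicit false

namespace Pool.Agent.J6H85.CG22

open Pool.Agent.J6H54.CG
open Finset

/-- decomposition `v = f / k ^ R + u + k ^ H y` -/
lemma dec (k R H P : ℕ) (hk : 2 ≤ k) (v : ℚ) (h : Kad k R v) (hv : |v| ≤ P * (k : ℚ) ^ ((H : ℤ) + 1 + R)) :
    ∃ x : ℕ × ℤ × ℕ, x.1 < k ^ R ∧ (-((P * k ^ (1 + R) : ℕ) : ℤ) ≤ x.2.1 ∧ x.2.1 ≤ ((P * k ^ (1 + R) : ℕ) : ℤ)) ∧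
      x.2.2 < k ^ H ∧ v = (x.1 : ℚ) / (k : ℚ) ^ R + ((x.2.2 : ℚ) + (k : ℚ) ^ H * x.2.1) := by
  obtain ⟨a, ha⟩ := h
  rw [zpow_natCast] at ha
  have hk0 : (0 : ℚ) < k := kpos hk
  have hkR : (0 : ℚ) < (k : ℚ) ^ R := pow_pos hk0 _
  have hkH : (0 : ℚ) < (k : ℚ) ^ H := pow_pos hk0 _
  have hR : (0 : ℤ) < (k : ℤ) ^ R := by positivity
  have hH : (0 : ℤ) < (k : ℤ) ^ H := by positivity
  obtain ⟨f, hf⟩ : ∃ f : ℕ, (f : ℤ) = a % (k : ℤ) ^ R := ⟨(a % (k : ℤ) ^ R).toNat, Int.toNat_of_nonneg (Int.emod_nonneg _ hR.ne')⟩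
  obtain ⟨n, hn⟩ : ∃ n : ℤ, n = a / (k : ℤ) ^ R := ⟨_, rfl⟩
  obtain ⟨u, hu⟩ : ∃ u : ℕ, (u : ℤ) = n % (k : ℤ) ^ H := ⟨(n % (k : ℤ) ^ H).toNat, Int.toNat_of_nonneg (Int.emod_nonneg _ hH.ne')⟩
  obtain ⟨y, hy⟩ : ∃ y : ℤ, y = n / (k : ℤ) ^ H := ⟨_, rfl⟩
  have hf1 : f < k ^ R := by
    have := Int.emod_lt_of_pos a hR
    rw [← hf] at this
    exact_mod_cast this
  have hu1 : u < k ^ H := by
    have := Int.emod_lt_of_pos n hH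
    rw [← hu] at this
    exact_mod_cast this
  have ha1 : a = f + (k : ℤ) ^ R * n := by
    rw [hf, hn]
    exact (Int.emod_add_mul_ediv a _).symm
  have hn1 : n = u + (k : ℤ) ^ H * y := by
    rw [hu, hy]
    exact (Int.emod_add_mul_ediv n _).symm
  have hv1 : v = (f : ℚ) / (k : ℚ) ^ R + ((u : ℚ) + (k : ℚ) ^ H * y) := by
    have h1 : v * (k : ℚ) ^ R = f + (k : ℚ) ^ R * (u + (k : ℚ) ^ H * y) := by
      rw [ha, ha1, hn1]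
      push_cast
      ring
    field_simp
    linear_combination h1
  have hB : (P : ℚ) * (k : ℚ) ^ ((H : ℤ) + 1 + R) = (k : ℚ) ^ H * ((P * k ^ (1 + R) : ℕ) : ℚ) := by
    have h1 : (k : ℚ) ^ ((H : ℤ) + 1 + R) = (k : ℚ) ^ H * (k : ℚ) ^ (1 + R) := by
      rw [← pow_add, ← zpow_natCast]
      congr 1
      push_cast
      ring
    rw [h1]
    push_cast
    ring
  rw [hB, abs_le] at hv
  obtain ⟨hv2, hv3⟩ := hv
  have hf2 : 0 ≤ (f : ℚ) / (k : ℚ) ^ R := by positivity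
  have hf3 : (f : ℚ) / (k : ℚ) ^ R < 1 := by
    rw [div_lt_one hkR]
    exact_mod_cast hf1
  have hu2 : (0 : ℚ) ≤ u := Nat.cast_nonneg u
  have hu3 : (u : ℚ) + 1 ≤ (k : ℚ) ^ H := by exact_mod_cast hu1
  refine ⟨(f, y, u), hf1, ⟨?_, ?_⟩, hu1, hv1⟩
  · have h1 : (k : ℚ) ^ H * (-((P * k ^ (1 + R) : ℕ) : ℚ)) < (k : ℚ) ^ H * ((y : ℚ) + 1) := by
      have e1 : (k : ℚ) ^ H * (-((P * k ^ (1 + R) : ℕ) : ℚ)) = -((k : ℚ) ^ H * ((P * k ^ (1 + R) : ℕ) : ℚ)) := by ring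
      rw [e1]
      refine lt_of_le_of_lt hv2 ?_
      rw [hv1]
      linarith
    have h2 := lt_of_mul_lt_mul_left h1 hkH.le
    have h3 : (-((P * k ^ (1 + R) : ℕ) : ℤ)) < y + 1 := by exact_mod_cast h2
    show -((P * k ^ (1 + R) : ℕ) : ℤ) ≤ y
    omega
  · have h1 : (k : ℚ) ^ H * (y : ℚ) ≤ (k : ℚ) ^ H * ((P * k ^ (1 + R) : ℕ) : ℚ) := by
      refine le_trans ?_ hv3
      rw [hv1]
      linarith
    have h2 := le_of_mul_le_mul_left h1 hkH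
    show y ≤ ((P * k ^ (1 + R) : ℕ) : ℤ)
    exact_mod_cast h2

theorem m22 : S_sumA := by
  classical
  intro k T R P z₀ hT hz₀
  have hk := hT.two_le
  obtain ⟨B, hB⟩ : ∃ B : ℕ, B = P * k ^ (1 + R) := ⟨_, rfl⟩
  obtain ⟨c, hc⟩ : ∃ c : ℕ, c = (∑ f ∈ range (k ^ R), len k T (-((f : ℚ) / (k : ℚ) ^ R), 0)) +
      ∑ y ∈ Icc (-(B : ℤ)) B, len k T (-(y : ℚ), 0) := ⟨_, rfl⟩
  refine ⟨(z₀ ^ c)⁻¹ * (k ^ R * (Icc (-(B : ℤ)) B).card), by positivity, ?_⟩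
  intro H z hz hz1 V hV
  have hz0 : 0 < z := hz₀.trans_le hz
  have hdec : ∀ v : ℚ, ∃ x : ℕ × ℤ × ℕ, v ∈ V → (x.1 < k ^ R ∧ (-(B : ℤ) ≤ x.2.1 ∧ x.2.1 ≤ (B : ℤ)) ∧
      x.2.2 < k ^ H ∧ v = (x.1 : ℚ) / (k : ℚ) ^ R + ((x.2.2 : ℚ) + (k : ℚ) ^ H * x.2.1)) := by
    intro v
    by_cases h : v ∈ V
    · obtain ⟨x, hx⟩ := dec k R H P hk v (hV v h).1 (hV v h).2
      refine ⟨x, fun _ => ?_⟩
      rw [hB]
      exact hx
    · exact ⟨(0, 0, 0), fun h2 => absurd h2 h⟩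
  choose φ hφ using hdec
  have hlen : ∀ v ∈ V, z ^ len k T (v, (H : ℤ)) ≤ (z₀ ^ c)⁻¹ * z ^ len k T (((φ v).2.2 : ℚ), (H : ℤ)) := by
    intro v hv
    obtain ⟨h1, ⟨h2, h3⟩, h4, h5⟩ := hφ v hv
    obtain ⟨f, hf⟩ : ∃ f : ℕ, f = (φ v).1 := ⟨_, rfl⟩
    obtain ⟨y, hy⟩ : ∃ y : ℤ, y = (φ v).2.1 := ⟨_, rfl⟩
    obtain ⟨u, hu⟩ : ∃ u : ℕ, u = (φ v).2.2 := ⟨_, rfl⟩
    rw [← hf, ← hy, ← hu] at h5
    rw [← hf] at h1
    rw [← hy] at h2 h3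
    rw [← hu]
    have kaf : KA k (-((f : ℚ) / (k : ℚ) ^ R)) := by
      refine ka_neg ⟨R, (f : ℤ), ?_⟩
      rw [zpow_natCast, div_mul_cancel₀ _ (pow_ne_zero _ (kne hk))]
      push_cast
      rfl
    have kay : KA k (-(y : ℚ)) := ka_neg (ka_int y)
    have kav : KA k v := ⟨R, (hV v hv).1⟩
    have g1 := len_add hT (x := v) (y := -(y : ℚ)) (m := (H : ℤ)) (n := 0) kav kay
    have kav2 : KA k (v + (k : ℚ) ^ (H : ℤ) * -(y : ℚ)) := ka_add hk kav (ka_shift hk kay _)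
    have g2 := len_add hT (x := -((f : ℚ) / (k : ℚ) ^ R)) (y := v + (k : ℚ) ^ (H : ℤ) * -(y : ℚ)) (m := 0)
      (n := (H : ℤ) + 0) kaf kav2
    have e1 : -((f : ℚ) / (k : ℚ) ^ R) + (k : ℚ) ^ (0 : ℤ) * (v + (k : ℚ) ^ (H : ℤ) * -(y : ℚ)) = (u : ℚ) := by
      rw [zpow_zero, one_mul, zpow_natCast]
      rw [h5]
      ring
    rw [e1, zero_add, add_zero] at g2
    rw [add_zero] at g1
    have b1 : len k T (-((f : ℚ) / (k : ℚ) ^ R), 0) ≤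
        ∑ f ∈ range (k ^ R), len k T (-((f : ℚ) / (k : ℚ) ^ R), 0) :=
      Finset.single_le_sum (f := fun f : ℕ => len k T (-((f : ℚ) / (k : ℚ) ^ R), 0))
        (fun _ _ => Nat.zero_le _) (mem_range.2 h1)
    have b2 : len k T (-(y : ℚ), 0) ≤ ∑ y ∈ Icc (-(B : ℤ)) B, len k T (-(y : ℚ), 0) :=
      Finset.single_le_sum (f := fun y : ℤ => len k T (-(y : ℚ), 0))
        (fun _ _ => Nat.zero_le _) (mem_Icc.2 ⟨h2, h3⟩)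
    have g3 : len k T ((u : ℚ), (H : ℤ)) ≤ c + len k T (v, (H : ℤ)) := by
      rw [hc]
      omega
    have g4 : z ^ (c + len k T (v, (H : ℤ))) ≤ z ^ len k T ((u : ℚ), (H : ℤ)) :=
      pow_le_pow_of_le_one hz0.le hz1 g3
    rw [pow_add] at g4
    have g5 : z₀ ^ c ≤ z ^ c := pow_le_pow_left₀ hz₀.le hz c
    have g6 : 0 < z₀ ^ c := pow_pos hz₀ c
    rw [inv_mul_eq_div, le_div_iff₀ g6]
    have g7 : 0 ≤ z ^ len k T (v, (H : ℤ)) := by positivity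
    nlinarith
  obtain ⟨G, hG⟩ : ∃ G : Finset (ℕ × ℤ × ℕ), G = range (k ^ R) ×ˢ (Icc (-(B : ℤ)) B ×ˢ range (k ^ H)) := ⟨_, rfl⟩
  have hinj : Set.InjOn φ V := by
    intro v hv w hw h
    rw [(hφ v hv).2.2.2, (hφ w hw).2.2.2, h]
  have hsub : V.image φ ⊆ G := by
    intro x hx
    obtain ⟨v, hv, rfl⟩ := mem_image.1 hx
    obtain ⟨h1, h2, h4, _⟩ := hφ v hv
    rw [hG, mem_product, mem_product]
    exact ⟨mem_range.2 h1, mem_Icc.2 h2, mem_range.2 h4⟩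
  have hsum : ∑ v ∈ V, z ^ len k T (((φ v).2.2 : ℚ), (H : ℤ)) ≤
      (k ^ R * (Icc (-(B : ℤ)) B).card) * A k T H z := by
    calc ∑ v ∈ V, z ^ len k T (((φ v).2.2 : ℚ), (H : ℤ)) =
        ∑ x ∈ V.image φ, z ^ len k T ((x.2.2 : ℚ), (H : ℤ)) := by
          rw [Finset.sum_image (f := fun x : ℕ × ℤ × ℕ => z ^ len k T ((x.2.2 : ℚ), (H : ℤ))) hinj]
      _ ≤ ∑ x ∈ G, z ^ len k T ((x.2.2 : ℚ), (H : ℤ)) :=
        Finset.sum_le_sum_of_subset_of_nonneg hsub (fun _ _ _ => by positivity)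
      _ = (k ^ R * (Icc (-(B : ℤ)) B).card) * A k T H z := by
        rw [hG, Finset.sum_product]
        simp only [Finset.sum_product, Finset.sum_const, card_range, nsmul_eq_mul]
        unfold A
        push_cast
        ring
  calc ∑ v ∈ V, z ^ len k T (v, (H : ℤ)) ≤ ∑ v ∈ V, (z₀ ^ c)⁻¹ * z ^ len k T (((φ v).2.2 : ℚ), (H : ℤ)) :=
        Finset.sum_le_sum hlen
    _ = (z₀ ^ c)⁻¹ * ∑ v ∈ V, z ^ len k T (((φ v).2.2 : ℚ), (H : ℤ)) := by rw [Finset.mul_sum]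
    _ ≤ (z₀ ^ c)⁻¹ * ((k ^ R * (Icc (-(B : ℤ)) B).card) * A k T H z) := by
        have : 0 < (z₀ ^ c)⁻¹ := by positivity
        exact mul_le_mul_of_nonneg_left hsum this.le
    _ = (z₀ ^ c)⁻¹ * (k ^ R * (Icc (-(B : ℤ)) B).card) * A k T H z := by ring

end Pool.Agent.J6H85.CG22
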